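import Pool.Agent.H719R3.FO.Top

/-!
# Convex tables bounded by algebraic curves with many foci have finitely many billiard polygons

Identify the plane with `ℂ` and let the boundary of a strictly convex table with unique tangents lie
on the irreducible algebraic curve `P(z, conj z) = 0`, of any degree. The foci of the curve are the
points `a` for which the isotropic line `z = a` touches the complexified curve `P(z, w) = 0`. If
`∑ 2 r_a + ∑ (2 r_a + 3) > 4 deg P`, the first sum over foci `a` (at a finite smooth point of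
contact, of order `r_a ≥ 2`) and the second over isotropic asymptotes `z = a` (with a smooth point at
infinity, of contact order `r_a ≥ 1`), then for every `n` there are only finitely many closed
billiard polygons with `n` vertices; so the set of the periodic points is countable.

A curve of degree `d ≥ 3` which is smooth in the projective plane and general with respect to the
isotropic lines has `d (d - 1)` foci with contact order 2, so the sum is `4 d (d - 1) > 4 d`, and the
theorem applies to all convex tables it bounds. (For conics there is equality, and an ellipse has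
infinitely many polygons.)

Source: `Pool.Agent.H719R3.FO` of the starting library, never handed in.
-/

set_option autoImplicit false

open MvPolynomial
open scoped ComplexConjugate

namespace Pool.Agent.Results.MP_249f74_an.ManyFoci

/-- The cross product `w × v` of vectors in the plane. -/
noncomputable def cross (w v : ℂ) : ℝ := (conj w * v).im

/-- The line through `p` with direction `u` does not meet the open convex set `Ω`. -/
def Tangent (Ω : Set ℂ) (p u : ℂ) : Prop := u ≠ 0 ∧ ∀ y ∈ Ω, cross u (y - p) ≠ 0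

/-- Bounded strictly convex tables with a unique tangent line at every boundary point. -/
def Table (Ω : Set ℂ) : Prop :=
  IsOpen Ω ∧ Convex ℝ Ω ∧ Bornology.IsBounded Ω ∧ Ω.Nonempty ∧ StrictConvex ℝ (closure Ω) ∧
    ∀ p ∈ frontier Ω, ∀ u v : ℂ, Tangent Ω p u → Tangent Ω p v → cross u v = 0

/-- Closed billiard polygons with `n` vertices `x j` in the table `Ω`: at each vertex the incoming
and the outgoing side are mirror images in the tangent line. -/
def Polygon (Ω : Set ℂ) (n : ℕ) (x : ℤ → ℂ) : Prop :=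
  (∀ j, x (j + n) = x j) ∧ (∀ j, x j ∈ frontier Ω) ∧ (∀ j, x (j + 1) ≠ x j) ∧
    ∀ j u, Tangent Ω (x j) u → ((x j - x (j - 1)) * (x (j + 1) - x j) * conj u ^ 2).im = 0

/-- The line `z = a` meets the curve `P(z, w) = 0` at `(a, b)`, a smooth point of the curve, with
contact of order `r`. -/
def Contact (P : MvPolynomial (Fin 2) ℂ) (a b : ℂ) (r : ℕ) : Prop :=
  ∃ U V : MvPolynomial (Fin 2) ℂ, P = (X 0 - C a) * U + (X 1 - C b) ^ r * V ∧
    eval ![a, b] U ≠ 0 ∧ eval ![a, b] V ≠ 0

/-- `P = ∑ pₙ(z) wⁿ` and `Q = ∑ pₙ(z) w^(d - n)`: the curve `Q = 0` is the curve `P = 0` in the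
coordinates `z, 1 / w`. -/
def AtInfinity (d : ℕ) (P Q : MvPolynomial (Fin 2) ℂ) : Prop :=
  ∃ p : ℕ → Polynomial ℂ,
    P = ∑ n ∈ Finset.range (d + 1), Polynomial.aeval (X 0 : MvPolynomial (Fin 2) ℂ) (p n) * X 1 ^ n ∧
    Q = ∑ n ∈ Finset.range (d + 1),
      Polynomial.aeval (X 0 : MvPolynomial (Fin 2) ℂ) (p n) * X 1 ^ (d - n)

/-- `a` is a focus of the curve `P = 0`: the isotropic line `z = a` touches the curve at a smooth
point, with contact of order `r ≥ 2`. -/
def Focus (P : MvPolynomial (Fin 2) ℂ) (a : ℂ) (r : ℕ) : Prop := 2 ≤ r ∧ ∃ b : ℂ, Contact P a b r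

/-- The isotropic line `z = a` is an asymptote of the curve `P = 0`; the point at infinity is
smooth, with contact of order `r ≥ 1`. -/
def Asymptote (P : MvPolynomial (Fin 2) ℂ) (a : ℂ) (r : ℕ) : Prop :=
  1 ≤ r ∧ ∃ (d : ℕ) (Q : MvPolynomial (Fin 2) ℂ), AtInfinity d P Q ∧ Contact Q a 0 r

theorem contact_ct {P : MvPolynomial (Fin 2) ℂ} {a b : ℂ} {r : ℕ} (h : Contact P a b r) :
    H719FO.Ct 0 1 P ![a, b] r := h

theorem table_of {Ω : Set ℂ} (h : Table Ω) : Pool.Agent.H719R3.BG.Table Ω :=
  ⟨h.1, h.2.1, h.2.2.1, h.2.2.2.1, h.2.2.2.2.1, h.2.2.2.2.2⟩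

/-- **Main theorem.** -/
theorem result (Ω : Set ℂ) (hΩ : Table Ω) (P : MvPolynomial (Fin 2) ℂ) (hP : Irreducible P)
    (hPΩ : ∀ p ∈ frontier Ω, eval ![p, conj p] P = 0) (F G : Finset ℂ) (hFG : Disjoint F G)
    (r : ℂ → ℕ) (hF : ∀ a ∈ F, Focus P a (r a)) (hG : ∀ a ∈ G, Asymptote P a (r a))
    (hdeg : 4 * P.totalDegree < ∑ a ∈ F, 2 * r a + ∑ a ∈ G, (2 * r a + 3)) (n : ℕ) (hn : 0 < n) :
    {x : ℤ → ℂ | Polygon Ω n x}.Finite := by
  have h := H719FO.finite_polygons Ω (table_of hΩ) P hP hPΩ F G r
    ⟨hFG, fun a ha => ⟨(hF a ha).1, (hF a ha).2⟩, fun a ha => ⟨(hG a ha).1, (hG a ha).2⟩, hdeg⟩ n hn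
  refine h.subset fun x hx => ?_
  exact ⟨hx.1, hx.2.1, hx.2.2.1, hx.2.2.2⟩

end Pool.Agent.Results.MP_249f74_an.ManyFoci
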