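import Pool.Agent.H450R3.BH.Top

/-!
# Convex tables bounded by algebraic curves with many parallel tangents have finitely many billiard polygons

Identify the plane with `ℂ` and let the boundary of a strictly convex table with unique tangents lie
on the irreducible algebraic curve `P(z, conj z) = 0` of degree `m ≥ 2`. Suppose that the complex
curve has more than `2 m` nonsingular points at which the tangent line is parallel to one and the
same real direction (a general curve has as many such points as its class says; curves with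
singular points are allowed). Then for every `n` there are only finitely many closed billiard
polygons with `n` vertices; so the set of all periodic points is countable.

Source: `Pool.Agent.H450R3.BH` of the starting library, never handed in.
-/

set_option autoImplicit false

open MvPolynomial
open scoped ComplexConjugate

namespace Pool.Agent.Results.MP_249f74_an.ManyParallelTangents

/-- The cross product `w × v` of vectors in the plane. -/
noncomputable def cross (w v : ℂ) : ℝ := (conj w * v).im

/-- The line through `p` with direction `u` does not meet the open convex set `Ω`. -/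
def Tangent (Ω : Set ℂ) (p u : ℂ) : Prop := u ≠ 0 ∧ ∀ y ∈ Ω, cross u (y - p) ≠ 0

/-- Bounded strictly convex tables with a unique tangent line at every boundary point. -/
def Table (Ω : Set ℂ) : Prop :=
  IsOpen Ω ∧ Convex ℝ Ω ∧ Bornology.IsBounded Ω ∧ Ω.Nonempty ∧ StrictConvex ℝ (closure Ω) ∧
    ∀ p ∈ frontier Ω, ∀ u v : ℂ, Tangent Ω p u → Tangent Ω p v → cross u v = 0

/-- Closed billiard polygons with `n` vertices `x j` in the table `Ω`: at each vertex the incoming
and the outgoing side are mirror images in the tangent line. -/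
def Polygon (Ω : Set ℂ) (n : ℕ) (x : ℤ → ℂ) : Prop :=
  (∀ j, x (j + n) = x j) ∧ (∀ j, x j ∈ frontier Ω) ∧ (∀ j, x (j + 1) ≠ x j) ∧
    ∀ j u, Tangent Ω (x j) u → ((x j - x (j - 1)) * (x (j + 1) - x j) * conj u ^ 2).im = 0

/-- More than `2 deg P` nonsingular points of the complex curve `P(z, w) = 0` have a tangent line
parallel to the real direction `u`, which is the direction `(u, conj u)` in the coordinates `z`,
`w = conj z`. -/
def ParallelTangents (P : MvPolynomial (Fin 2) ℂ) : Prop :=
  ∃ (u : ℂ) (Z : Finset (Fin 2 → ℂ)), u ≠ 0 ∧ 2 * P.totalDegree < Z.card ∧ ∀ x ∈ Z,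
    eval x P = 0 ∧ eval x (pderiv 0 P) * u + eval x (pderiv 1 P) * conj u = 0 ∧
      (eval x (pderiv 0 P) ≠ 0 ∨ eval x (pderiv 1 P) ≠ 0)

theorem table_of {Ω : Set ℂ} (h : Table Ω) : Pool.Agent.H719R3.BG.Table Ω :=
  ⟨h.1, h.2.1, h.2.2.1, h.2.2.2.1, h.2.2.2.2.1, h.2.2.2.2.2⟩

/-- **Main theorem.** -/
theorem result (Ω : Set ℂ) (hΩ : Table Ω) (P : MvPolynomial (Fin 2) ℂ) (hP : Irreducible P)
    (hPΩ : ∀ p ∈ frontier Ω, eval ![p, conj p] P = 0) (h2 : 2 ≤ P.totalDegree)
    (hM : ParallelTangents P) (n : ℕ) (hn : 0 < n) :
    {x : ℤ → ℂ | Polygon Ω n x}.Finite := by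
  have key : {x : ℤ → ℂ | Pool.Agent.H719R3.BG.Polygon Ω n x}.Finite :=
    H450BH.finite_polygons Ω (table_of hΩ) P hP h2 (Or.inl hM) hPΩ n hn
  refine key.subset fun x hx => ?_
  exact ⟨hx.1, hx.2.1, hx.2.2.1, hx.2.2.2⟩

end Pool.Agent.Results.MP_249f74_an.ManyParallelTangents
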