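import Pool.Agent.H719R3.FO.Top
import Pool.Agent.H719R3.FO.CUB
import Pool.Agent.H719R3.FO.CUB1
import Pool.Agent.H719R3.FO.CUB2
import Pool.Agent.H450R3.BH.Top

/-!
# Convex tables bounded by nonsingular algebraic curves have finitely many billiard polygons

Identify the plane with `ℂ` and let the boundary of a strictly convex table with unique tangents lie
on the irreducible algebraic curve `P(z, conj z) = 0` of degree `m ≥ 3`. Suppose that the (complex)
curve `P(z, w) = 0` is nonsingular and has `m` distinct points at infinity. Then for every `n` there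
are only finitely many closed billiard polygons with `n` vertices; so the set of all periodic points
is countable. Ellipses (`m = 2`) show that the bound `m ≥ 3` is sharp.

Source: `Pool.Agent.H719R3.FO` and `Pool.Agent.H450R3.BH` of the starting library, never handed in.
-/

set_option autoImplicit false

open MvPolynomial
open scoped ComplexConjugate

namespace Pool.Agent.Results.MP_249f74_an.NonsingularCurves

/-- The cross product `w × v` of vectors in the plane. -/
noncomputable def cross (w v : ℂ) : ℝ := (conj w * v).im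

/-- The line through `p` with direction `u` does not meet the open convex set `Ω`. -/
def Tangent (Ω : Set ℂ) (p u : ℂ) : Prop := u ≠ 0 ∧ ∀ y ∈ Ω, cross u (y - p) ≠ 0

/-- Bounded strictly convex tables with a unique tangent line at every boundary point. -/
def Table (Ω : Set ℂ) : Prop :=
  IsOpen Ω ∧ Convex ℝ Ω ∧ Bornology.IsBounded Ω ∧ Ω.Nonempty ∧ StrictConvex ℝ (closure Ω) ∧
    ∀ p ∈ frontier Ω, ∀ u v : ℂ, Tangent Ω p u → Tangent Ω p v → cross u v = 0

/-- Closed billiard polygons with `n` vertices `x j` in the table `Ω`: at each vertex the incoming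
and the outgoing side are mirror images in the tangent line. -/
def Polygon (Ω : Set ℂ) (n : ℕ) (x : ℤ → ℂ) : Prop :=
  (∀ j, x (j + n) = x j) ∧ (∀ j, x j ∈ frontier Ω) ∧ (∀ j, x (j + 1) ≠ x j) ∧
    ∀ j u, Tangent Ω (x j) u → ((x j - x (j - 1)) * (x (j + 1) - x j) * conj u ^ 2).im = 0

/-- The affine curve `P = 0` in `ℂ²` is nonsingular. -/
def Nonsingular (P : MvPolynomial (Fin 2) ℂ) : Prop :=
  ∀ x : Fin 2 → ℂ, eval x P = 0 → eval x (pderiv 0 P) = 0 → eval x (pderiv 1 P) = 0 → False

/-- The curve `P = 0` of degree `m` has `m` distinct points at infinity: the leading form has no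
multiple linear factor. -/
def DistinctAtInfinity (P : MvPolynomial (Fin 2) ℂ) : Prop :=
  ∀ x : Fin 2 → ℂ, x ≠ 0 →
    eval x (pderiv 0 (homogeneousComponent P.totalDegree P)) = 0 →
    eval x (pderiv 1 (homogeneousComponent P.totalDegree P)) = 0 → False

theorem table_of {Ω : Set ℂ} (h : Table Ω) : Pool.Agent.H719R3.BG.Table Ω :=
  ⟨h.1, h.2.1, h.2.2.1, h.2.2.2.1, h.2.2.2.2.1, h.2.2.2.2.2⟩

/-- **Main theorem.** -/
theorem result (Ω : Set ℂ) (hΩ : Table Ω) (P : MvPolynomial (Fin 2) ℂ) (hP : Irreducible P)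
    (hPΩ : ∀ p ∈ frontier Ω, eval ![p, conj p] P = 0) (h3 : 3 ≤ P.totalDegree)
    (hN : Nonsingular P) (hT : DistinctAtInfinity P) (n : ℕ) (hn : 0 < n) :
    {x : ℤ → ℂ | Polygon Ω n x}.Finite := by
  have key : {x : ℤ → ℂ | Pool.Agent.H719R3.BG.Polygon Ω n x}.Finite := by
    rcases Nat.lt_or_ge P.totalDegree 4 with h4 | h4
    · have h5 : P.totalDegree = 3 := by omega
      obtain ⟨F, G, r, hyp⟩ := H719FO.CUB_proof H719FO.CUB1_proof H719FO.CUB2_proof P hP h5 hN hT
      exact H719FO.finite_polygons Ω (table_of hΩ) P hP hPΩ F G r hyp n hn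
    · exact H450BH.finite_polygons Ω (table_of hΩ) P hP (by omega) (Or.inr ⟨h4, hN, hT⟩) hPΩ n hn
  refine key.subset fun x hx => ?_
  exact ⟨hx.1, hx.2.1, hx.2.2.1, hx.2.2.2⟩

end Pool.Agent.Results.MP_249f74_an.NonsingularCurves
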